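import Pool.Agent.H671R2.PolyAuto
import Pool.Agent.NPC.Dec

/-!
# Utilities for polynomial-time computability
-/

namespace Pool.Agent.X245

open Pool.Agent.NPC

set_option autoImplicit false

theorem take_aux {β : Type} : ∀ (l : List β) (k j : ℕ),
    ((l.zipIdx j).filter (fun q => decide (q.2 < j + k))).map Prod.fst = l.take k := by
  intro l
  induction l with
  | nil => intro k j; simp
  | cons a l ih =>
    intro k j
    rw [List.zipIdx_cons]
    cases k with
    | zero =>
      have h : ((a, j) :: l.zipIdx (j + 1)).filter (fun q => decide (q.2 < j + 0)) = [] := by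
        rw [List.filter_eq_nil_iff]
        intro q hq
        rcases List.mem_cons.1 hq with h | h
        · rw [h]; simp
        · have := List.le_snd_of_mem_zipIdx h
          simp only [decide_eq_true_eq]
          omega
      rw [h]; simp
    | succ k =>
      rw [List.filter_cons_of_pos (by simp), List.map_cons, List.take_succ_cons]
      have e : j + (k + 1) = j + 1 + k := by omega
      rw [e, ih k (j + 1)]

theorem drop_aux {β : Type} : ∀ (l : List β) (k j : ℕ),
    ((l.zipIdx j).filter (fun q => decide (j + k ≤ q.2))).map Prod.fst = l.drop k := by
  intro l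
  induction l with
  | nil => intro k j; simp
  | cons a l ih =>
    intro k j
    rw [List.zipIdx_cons]
    cases k with
    | zero =>
      have h : ((a, j) :: l.zipIdx (j + 1)).filter (fun q => decide (j + 0 ≤ q.2)) =
          (a, j) :: l.zipIdx (j + 1) := by
        rw [List.filter_eq_self]
        intro q hq
        rcases List.mem_cons.1 hq with h | h
        · rw [h]; simp
        · have := List.le_snd_of_mem_zipIdx h
          simp only [decide_eq_true_eq]
          omega
      rw [h, List.drop_zero, List.map_cons, List.zipIdx_map_fst]
    | succ k =>
      rw [List.filter_cons_of_neg (by simp), List.drop_succ_cons]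
      have e : j + (k + 1) = j + 1 + k := by omega
      rw [e, ih k (j + 1)]

variable {α β : Type} [TEnc α] [TEnc β]

@[fun_prop]
theorem poly_take {l : α → List β} {k : α → ℕ} (hl : NPC.Poly l)
    (hk : NPC.Poly k) : NPC.Poly (fun a => (l a).take (k a)) := by
  have h : NPC.Poly (fun a => ((l a).zipIdx.filter (fun q => decide (q.2 < k a))).map Prod.fst) := by
    fun_prop
  refine h.congr fun a => ?_
  have := take_aux (l a) (k a) 0
  simpa using this

@[fun_prop]
theorem poly_drop {l : α → List β} {k : α → ℕ} (hl : NPC.Poly l)
    (hk : NPC.Poly k) : NPC.Poly (fun a => (l a).drop (k a)) := by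
  have h : NPC.Poly (fun a => ((l a).zipIdx.filter (fun q => decide (k a ≤ q.2))).map Prod.fst) := by
    fun_prop
  refine h.congr fun a => ?_
  have := drop_aux (l a) (k a) 0
  simpa using this

end Pool.Agent.X245
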