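import Pool.Agent.H623R2.PS.Savitch
import Pool.Agent.X245.Util

/-!
# Languages defined by polynomially many quantified bits: closure properties
-/

namespace Pool.Agent.X245

open Pool.Agent.NPC Pool.Agent.H623R2.PS

set_option autoImplicit false

/-- Languages given by a polynomial-time computable list of quantifiers and a polynomial-time
matrix. -/
def EvL (L : Set (List Bool)) : Prop :=
  ∃ (qs : List Bool → List Bool) (φ : List Bool → List Bool → Bool), NPC.Poly qs ∧
    NPC.Poly (fun p : List Bool × List Bool => φ p.1 p.2) ∧ ∀ x, x ∈ L ↔ evq (qs x) (φ x) = true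

theorem EvL.inPSPACE {L : Set (List Bool)} (h : EvL L) : InPSPACE L := by
  obtain ⟨qs, φ, h1, h2, h3⟩ := h
  exact inPSPACE_of_evq (α := List Bool) (init := fun x => x) NPC.Poly.id h1 h2 h3

theorem evq_not (qs : List Bool) (φ : List Bool → Bool) :
    evq (qs.map fun b => !b) (fun u => !(φ u)) = !(evq qs φ) := by
  induction qs generalizing φ with
  | nil => rfl
  | cons q qs ih =>
    rw [List.map_cons, evq, evq, ih, ih]
    cases q <;> cases evq qs (fun u => φ (false :: u)) <;> cases evq qs (fun u => φ (true :: u)) <;>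
      rfl

theorem evq_append (qs qs' : List Bool) (φ φ' : List Bool → Bool) :
    evq (qs ++ qs') (fun u => φ (u.take qs.length) && φ' (u.drop qs.length)) =
      (evq qs φ && evq qs' φ') := by
  induction qs generalizing φ with
  | nil =>
    rw [List.nil_append]
    simp only [List.length_nil, List.take_zero, List.drop_zero]
    rw [evq_and]
    rfl
  | cons q qs ih =>
    rw [List.cons_append, evq, evq]
    simp only [List.length_cons, List.take_succ_cons, List.drop_succ_cons]
    rw [ih (fun u => φ (false :: u)), ih (fun u => φ (true :: u))]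
    cases q <;> cases evq qs (fun u => φ (false :: u)) <;> cases evq qs (fun u => φ (true :: u)) <;>
      cases evq qs' φ' <;> rfl

theorem EvL.compl {L : Set (List Bool)} (h : EvL L) : EvL Lᶜ := by
  obtain ⟨qs, φ, h1, h2, h3⟩ := h
  refine ⟨fun x => (qs x).map fun b => !b, fun x u => !(φ x u), ?_, ?_, ?_⟩
  · exact NPC.Poly.map (F := fun _ b => !b) h1 (by fun_prop)
  · exact NPC.Poly.not h2
  · intro x
    rw [Set.mem_compl_iff, h3, evq_not]
    simp

theorem EvL.inter {L L' : Set (List Bool)} (h : EvL L) (h' : EvL L') : EvL (L ∩ L') := by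
  obtain ⟨qs, φ, h1, h2, h3⟩ := h
  obtain ⟨qs', φ', h1', h2', h3'⟩ := h'
  refine ⟨fun x => qs x ++ qs' x,
    fun x u => φ x (u.take (qs x).length) && φ' x (u.drop (qs x).length), ?_, ?_, ?_⟩
  · exact NPC.Poly.append h1 h1'
  · have e1 : NPC.Poly (fun p : List Bool × List Bool => p.2.take (qs p.1).length) := by
      have := h1.comp (f := fun p : List Bool × List Bool => p.1) (by fun_prop)
      fun_prop
    have e2 : NPC.Poly (fun p : List Bool × List Bool => p.2.drop (qs p.1).length) := by
      have := h1.comp (f := fun p : List Bool × List Bool => p.1) (by fun_prop)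
      fun_prop
    refine NPC.Poly.and ?_ ?_
    · exact h2.comp (f := fun p : List Bool × List Bool => (p.1, p.2.take (qs p.1).length))
        (by fun_prop)
    · exact h2'.comp (f := fun p : List Bool × List Bool => (p.1, p.2.drop (qs p.1).length))
        (by fun_prop)
  · intro x
    rw [Set.mem_inter_iff, h3, h3', evq_append, Bool.and_eq_true]

theorem EvL.congr {L L' : Set (List Bool)} (h : EvL L) (hL : ∀ x, x ∈ L ↔ x ∈ L') : EvL L' := by
  obtain ⟨qs, φ, h1, h2, h3⟩ := h
  exact ⟨qs, φ, h1, h2, fun x => (hL x).symm.trans (h3 x)⟩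

/-- Polynomial-time decidable conditions. -/
theorem EvL.of_test {L : Set (List Bool)} {g : List Bool → Bool} (hg : NPC.Poly g)
    (hL : ∀ x, x ∈ L ↔ g x = true) : EvL L :=
  ⟨fun _ => [], fun x _ => g x, NPC.Poly.const _,
    hg.comp (f := fun p : List Bool × List Bool => p.1) (by fun_prop), fun x => by rw [hL]; rfl⟩

section Reach

variable {α : Type} [TEnc α]

/-- Reachability between bit strings of polynomial length. -/
theorem EvL.of_reach {L : Set (List Bool)} {init : List Bool → α} (hinit : NPC.Poly init)
    {w : α → ℕ} (hw : UPoly w) {good : α → Bool} (hgood : NPC.Poly good)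
    {R : α → List Bool → List Bool → Bool}
    (hR : NPC.Poly (fun p : α × List Bool × List Bool => R p.1 p.2.1 p.2.2))
    {s t : α → List Bool} (hs : NPC.Poly s) (ht : NPC.Poly t)
    (hsl : ∀ a, (s a).length = w a)
    (hRl : ∀ a u v, u.length = w a → R a u v = true → v.length = w a)
    (hL : ∀ x, x ∈ L ↔ good (init x) = true ∧
      Relation.ReflTransGen (fun u v => R (init x) u v = true) (s (init x)) (t (init x))) :
    EvL L := by
  have hwi := hw.comp hinit
  refine ⟨fun x => blocks (w (init x)) (w (init x)),
    fun x u => good (init x) && (decide ((fin3 (w (init x)) (s (init x)) (t (init x)) u).1 =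
      (fin3 (w (init x)) (s (init x)) (t (init x)) u).2.1) ||
      R (init x) (fin3 (w (init x)) (s (init x)) (t (init x)) u).1
        (fin3 (w (init x)) (s (init x)) (t (init x)) u).2.1), poly_blocks hwi, ?_, ?_⟩
  · have hwp := hw.toPoly
    have h1 : NPC.Poly (fun p : α × List Bool => fin3 (w p.1) (s p.1) (t p.1) p.2) :=
      poly_fin3.comp (f := fun p : α × List Bool => (w p.1, s p.1, t p.1, p.2)) (by fun_prop)
    have h2 : NPC.Poly (fun p : α × List Bool => R p.1 (fin3 (w p.1) (s p.1) (t p.1) p.2).1
        (fin3 (w p.1) (s p.1) (t p.1) p.2).2.1) :=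
      hR.comp (f := fun p : α × List Bool => (p.1, (fin3 (w p.1) (s p.1) (t p.1) p.2).1,
        (fin3 (w p.1) (s p.1) (t p.1) p.2).2.1)) (by fun_prop)
    have h3 : NPC.Poly (fun a : α × List Bool =>
        good a.1 && (decide ((fin3 (w a.1) (s a.1) (t a.1) a.2).1 =
      (fin3 (w a.1) (s a.1) (t a.1) a.2).2.1) ||
      R a.1 (fin3 (w a.1) (s a.1) (t a.1) a.2).1 (fin3 (w a.1) (s a.1) (t a.1) a.2).2.1)) := by
      fun_prop
    exact h3.comp (f := fun p : List Bool × List Bool => (init p.1, p.2)) (by fun_prop)
  · intro x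
    rw [hL, evq_and, Bool.and_eq_true]
    refine and_congr_right fun _ => ?_
    rw [← RR_reach (hRl (init x)) (hsl (init x))]
    exact (evq_blocks (R := R (init x)) (w (init x)) (w (init x)) (s (init x)) (t (init x))).symm

end Reach

/-- Polynomial space is closed under complement. -/
theorem inPSPACE_compl {L : Set (List Bool)} (h : InPSPACE L) : InPSPACE Lᶜ := by
  obtain ⟨f, M, p, hf, hp⟩ := h
  refine ⟨fun x => !(f x), ⟨⟨M.tm, M.inputAlphabet, M.outputAlphabet.trans Equiv.boolNot⟩,
    fun x => ?_⟩, p, fun x => ?_, fun x c hc => hp x c hc⟩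
  · have h1 := M.outputsFun x
    have e : (List.map (M.outputAlphabet.trans Equiv.boolNot).invFun [!(f x)]) =
        List.map M.outputAlphabet.invFun [f x] := by
      simp [Equiv.boolNot]
    change Turing.TM2Outputs M.tm (List.map M.inputAlphabet.invFun x)
      (Option.some (List.map (M.outputAlphabet.trans Equiv.boolNot).invFun [!(f x)]))
    rw [e]
    exact h1
  · rw [Set.mem_compl_iff, hf]
    simp

end Pool.Agent.X245
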